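import Pool.Agent.Helper62.IX.Stm
import Pool.Agent.Helper90.GX.Irr

/-!
# I_Irr: the forms of the irreducibility on the kernel of the residue at infinity
-/

set_option autoImplicit false
set_option linter.unusedSectionVars false

open Polynomial Matrix Finset

namespace Pool.Agent.Helper90.IX

open Pool.Agent.Helper62.BM Pool.Agent.Helper62.BW Pool.Agent.Helper62.BX Pool.Agent.Helper62.CX
open Pool.Agent.Helper62.GX Pool.Agent.Helper62.IX
open Pool.Agent.Helper90.BW (pol pol_coeff pol_mem pol_coeff_ge pol_eq pol_surj pol_inj coeff_dE)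
open Pool.Agent.Helper90.CX (th th_inj W_ne d_mul d_mulVec d_dot)
open Pool.Agent.Helper90.GX (Rl uniq)

section em

variable {E : Type} [Field E] {n : ℕ}

/-- the coordinates without the index `c` on the kernel of the functional `s` with `s_c = 1` -/
noncomputable def em (c : Fin (n + 1)) (s : Fin (n + 1) → E) :
    (Fin n → E) →ₗ[E] (Fin (n + 1) → E) where
  toFun u := Fin.insertNth (α := fun _ => E) c (-∑ l, s (c.succAbove l) * u l) u
  map_add' u v := by
    funext j
    refine Fin.succAboveCases c ?_ (fun l => ?_) j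
    · rw [Pi.add_apply, Fin.insertNth_apply_same, Fin.insertNth_apply_same,
        Fin.insertNth_apply_same, ← neg_add, ← Finset.sum_add_distrib]
      congr 1
      exact Finset.sum_congr rfl fun l _ => by rw [Pi.add_apply, mul_add]
    · rw [Pi.add_apply, Fin.insertNth_apply_succAbove, Fin.insertNth_apply_succAbove,
        Fin.insertNth_apply_succAbove, Pi.add_apply]
  map_smul' a u := by
    funext j
    refine Fin.succAboveCases c ?_ (fun l => ?_) j
    · rw [Pi.smul_apply, Fin.insertNth_apply_same, Fin.insertNth_apply_same, RingHom.id_apply,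
        smul_eq_mul, mul_neg, Finset.mul_sum]
      congr 1
      refine Finset.sum_congr rfl fun l _ => ?_
      rw [Pi.smul_apply, smul_eq_mul]
      ring
    · rw [Pi.smul_apply, Fin.insertNth_apply_succAbove, Fin.insertNth_apply_succAbove,
        Pi.smul_apply, RingHom.id_apply]

theorem em_same (c : Fin (n + 1)) (s : Fin (n + 1) → E) (u : Fin n → E) :
    em c s u c = -∑ l, s (c.succAbove l) * u l :=
  Fin.insertNth_apply_same (α := fun _ => E) _ _ _

theorem em_succ (c : Fin (n + 1)) (s : Fin (n + 1) → E) (u : Fin n → E) (l : Fin n) :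
    em c s u (c.succAbove l) = u l :=
  Fin.insertNth_apply_succAbove (α := fun _ => E) _ _ _ _

theorem em_ker {c : Fin (n + 1)} {s : Fin (n + 1) → E} (hs : s c = 1) (u : Fin n → E) :
    ∑ j, s j * em c s u j = 0 := by
  rw [Fin.sum_univ_succAbove _ c, em_same, hs, one_mul]
  simp only [em_succ]
  exact neg_add_cancel _

theorem em_of_ker {c : Fin (n + 1)} {s : Fin (n + 1) → E} (hs : s c = 1) (w : Fin (n + 1) → E)
    (h : ∑ j, s j * w j = 0) : em c s (fun l => w (c.succAbove l)) = w := by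
  funext j
  refine Fin.succAboveCases c ?_ (fun l => ?_) j
  · rw [em_same]
    rw [Fin.sum_univ_succAbove _ c, hs, one_mul] at h
    linear_combination -h
  · rw [em_succ]

theorem em_inj (c : Fin (n + 1)) (s : Fin (n + 1) → E) : Function.Injective (em c s) := by
  intro u v h
  funext l
  rw [← em_succ c s u l, ← em_succ c s v l, h]

/-- the residues -/
noncomputable def rs (c : Fin (n + 1)) (T : E[X]) (j : Fin (n + 1)) : E := res (c : ℕ) T (j : ℕ)

theorem rs_c (c : Fin (n + 1)) {T : E[X]} (hT : T.coeff 0 = 1) : rs c T c = 1 := by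
  unfold rs res
  rw [if_neg (lt_irrefl _), Nat.sub_self, hT]

/-- the polynomials -/
noncomputable def pv (c : Fin (n + 1)) (T : E[X]) : (Fin n → E) →ₗ[E] E[X] :=
  pol E (n + 1) ∘ₗ em c (rs c T)

theorem pv_apply (c : Fin (n + 1)) (T : E[X]) (u : Fin n → E) :
    pv c T u = pol E (n + 1) (em c (rs c T) u) := rfl

theorem pol_VI (c : Fin (n + 1)) (T : E[X]) (w : Fin (n + 1) → E) :
    pol E (n + 1) w ∈ VI (n + 1) (c : ℕ) T ↔ ∑ j, rs c T j * w j = 0 := by
  unfold VI
  rw [Submodule.mem_inf, LinearMap.mem_ker, LinearMap.sum_apply]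
  have h1 : ∑ l ∈ range (n + 1), (res (c : ℕ) T l • lcoeff E l) (pol E (n + 1) w) =
      ∑ j, rs c T j * w j := by
    rw [Finset.sum_range]
    refine Finset.sum_congr rfl fun j _ => ?_
    rw [LinearMap.smul_apply, lcoeff_apply, pol_coeff, smul_eq_mul]
    rfl
  rw [h1]
  exact ⟨fun h => h.2, fun h => ⟨pol_mem _ _ _, h⟩⟩

theorem pv_mem (c : Fin (n + 1)) {T : E[X]} (hT : T.coeff 0 = 1) (u : Fin n → E) :
    pv c T u ∈ VI (n + 1) (c : ℕ) T :=
  (pol_VI c T _).2 (em_ker (rs_c c hT) u)

theorem pv_surj (c : Fin (n + 1)) {T : E[X]} (hT : T.coeff 0 = 1) {q : E[X]}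
    (hq : q ∈ VI (n + 1) (c : ℕ) T) : ∃ u, pv c T u = q := by
  obtain ⟨w, rfl⟩ := pol_surj E (n + 1) (Submodule.mem_inf.1 hq).1
  refine ⟨fun l => w (c.succAbove l), ?_⟩
  rw [pv_apply, em_of_ker (rs_c c hT) w ((pol_VI c T w).1 hq)]

theorem pv_inj (c : Fin (n + 1)) (T : E[X]) : Function.Injective (pv c T) :=
  (pol_inj E (n + 1)).comp (em_inj c _)

theorem pv_coeff (c : Fin (n + 1)) (T : E[X]) (u : Fin n → E) (l : Fin n) :
    (pv c T u).coeff (c.succAbove l : Fin (n + 1)) = u l := by
  rw [pv_apply, pol_coeff, em_succ]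

/-- the bilinear form on the polynomials -/
noncomputable def bil (c : Fin (n + 1)) (w : Matrix (Fin n) (Fin n) E) :
    E[X] →ₗ[E] E[X] →ₗ[E] E :=
  LinearMap.mk₂ E (fun f g => ∑ i : Fin n, ∑ j : Fin n,
    f.coeff (c.succAbove i : Fin (n + 1)) * w i j * g.coeff (c.succAbove j : Fin (n + 1)))
    (by
      intro f f' g
      simp only [coeff_add, add_mul, Finset.sum_add_distrib])
    (by
      intro c f g
      simp only [coeff_smul, smul_eq_mul, Finset.mul_sum]
      exact Finset.sum_congr rfl fun i _ => Finset.sum_congr rfl fun j _ => by ring)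
    (by
      intro f g g'
      simp only [coeff_add, mul_add, Finset.sum_add_distrib])
    (by
      intro c f g
      simp only [coeff_smul, smul_eq_mul, Finset.mul_sum]
      exact Finset.sum_congr rfl fun i _ => Finset.sum_congr rfl fun j _ => by ring)

theorem bil_apply (c : Fin (n + 1)) (w : Matrix (Fin n) (Fin n) E) (f g : E[X]) :
    bil c w f g = ∑ i : Fin n, ∑ j : Fin n,
      f.coeff (c.succAbove i : Fin (n + 1)) * w i j * g.coeff (c.succAbove j : Fin (n + 1)) :=
  rfl

theorem bil_pv (c : Fin (n + 1)) (T : E[X]) (w : Matrix (Fin n) (Fin n) E) (u v : Fin n → E) :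
    bil c w (pv c T u) (pv c T v) = u ⬝ᵥ (w *ᵥ v) := by
  rw [bil_apply, dotProduct]
  refine Finset.sum_congr rfl fun i _ => ?_
  rw [Matrix.mulVec, dotProduct, Finset.mul_sum]
  refine Finset.sum_congr rfl fun j _ => ?_
  rw [pv_coeff, pv_coeff]
  ring

end em

section conn

variable {ι : Type} [Fintype ι] [DecidableEq ι]
variable {k : Type} [Field k] [CharZero k] {m : ℕ} {ρ nd : ι → ℕ}
  {a : ι → k[X][X]}
  {E : Type} [Field E] [Algebra (KX k) E]

theorem sol0 {N : ℕ} {P S : Fin N → k[X][X]} {W : k[X]} (hN : 1 ≤ N)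
    (hR : RelG m ρ N a W P S) (hW : W ≠ 0) (δ : Der E)
    (u : Fin N → E) : ∃ P0 S0 : E[X], P0.natDegree < N ∧ S0.natDegree ≤ N ∧
      Rl m ρ a P0 S0 (pol E N u) ∧
      dE δ (pol E N u) - P0 - derivative S0 =
        pol E N ((fun i => δ (u i)) + (Matrix.of fun i j =>
          th k E (Mc P S i j) * (th k E W)⁻¹) *ᵥ u) := by
  have hθW : th k E W ≠ 0 := (map_ne_zero_iff _ th_inj).2 hW
  set θ : k[X] →+* E := th k E with hθ
  set F : k[X][X] := ∏ l, a l with hFF
  set L1 : k[X][X] := LamG ρ a (fun l => derivative (a l)) with hL1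
  set L2 : k[X][X] := LamG ρ a (fun l => dt (a l)) with hL2
  have hrel : ∀ l : Fin N, (m : E[X]) * (P l).map θ * (F.map θ) +
      (S l).map θ * L1.map θ =
      Polynomial.C (θ W) * X ^ (l : ℕ) * L2.map θ := by
    intro l
    have h3 := congrArg (fun q => Polynomial.map θ q) (hR l).2.2
    simp only [Polynomial.map_mul, Polynomial.map_add, Polynomial.map_pow, Polynomial.map_X,
      Polynomial.map_C, Polynomial.map_natCast] at h3
    exact h3
  set P0 : E[X] := ∑ l, Polynomial.C (u l * (θ W)⁻¹) * (P l).map θ with hP0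
  set S0 : E[X] := ∑ l, Polynomial.C (u l * (θ W)⁻¹) * (S l).map θ with hS0
  have dP0 : P0.natDegree ≤ N - 1 := by
    refine natDegree_sum_le_of_forall_le _ _ fun l _ => (natDegree_C_mul_le _ _).trans ?_
    have := (hR l).1
    exact natDegree_map_le.trans (by omega)
  have dS0 : S0.natDegree ≤ N := by
    refine natDegree_sum_le_of_forall_le _ _ fun l _ => (natDegree_C_mul_le _ _).trans ?_
    exact natDegree_map_le.trans (hR l).2.1
  refine ⟨P0, S0, by omega, dS0, ?_, ?_⟩
  · show (m : E[X]) * P0 * (F.map θ) + S0 * L1.map θ = pol E N u * L2.map θ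
    rw [hP0, hS0, Finset.mul_sum, Finset.sum_mul, Finset.sum_mul, ← Finset.sum_add_distrib,
      pol_eq, Finset.sum_mul]
    refine Finset.sum_congr rfl fun l _ => ?_
    have e1 : (m : E[X]) * (Polynomial.C (u l * (θ W)⁻¹) * (P l).map θ) * (F.map θ) +
        Polynomial.C (u l * (θ W)⁻¹) * (S l).map θ * L1.map θ =
        Polynomial.C (u l * (θ W)⁻¹) * ((m : E[X]) * (P l).map θ * (F.map θ) +
          (S l).map θ * L1.map θ) := by ring
    rw [e1, hrel, ← mul_assoc, ← mul_assoc, ← C_mul, mul_assoc (u l), inv_mul_cancel₀ hθW,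
      mul_one]
  · ext j
    rw [coeff_sub, coeff_sub, coeff_dE, coeff_derivative]
    rcases lt_or_ge j N with hm | hm
    · have e1 := pol_coeff E N u ⟨j, hm⟩
      have e2 := pol_coeff E N ((fun i => δ (u i)) +
        (Matrix.of fun i j => θ (Mc P S i j) * (θ W)⁻¹) *ᵥ u) ⟨j, hm⟩
      simp only at e1 e2
      rw [e1, e2, Pi.add_apply, Matrix.mulVec, dotProduct, hP0, hS0, finsetSum_coeff,
        finsetSum_coeff, Finset.sum_mul, sub_sub, ← Finset.sum_add_distrib,
        sub_eq_add_neg, ← Finset.sum_neg_distrib]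
      congr 1
      refine Finset.sum_congr rfl fun l _ => ?_
      have e4 : Mc P S ⟨j, hm⟩ l = -((P l).coeff j + (S l).coeff (j + 1) * ((j : k[X]) + 1)) := by
        rw [Mc, Matrix.of_apply, coeff_add, coeff_derivative]
      rw [Matrix.of_apply, e4, coeff_C_mul, coeff_C_mul, coeff_map, coeff_map,
        map_neg, map_add, map_mul, map_add, map_natCast, map_one]
      ring
    · have e1 := pol_coeff_ge E N u hm
      have e2 := pol_coeff_ge E N ((fun i => δ (u i)) +
        (Matrix.of fun i j => θ (Mc P S i j) * (θ W)⁻¹) *ᵥ u) hm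
      rw [e1, e2, map_zero, coeff_eq_zero_of_natDegree_lt (p := P0) (by omega),
        coeff_eq_zero_of_natDegree_lt (p := S0) (by omega)]
      ring

theorem rs_map {n : ℕ} (c : Fin (n + 1)) (T : k[X][X]) (j : Fin (n + 1)) :
    rs c (T.map (th k E)) j = th k E (res (c : ℕ) T (j : ℕ)) := by
  unfold rs res
  split_ifs
  · rw [map_zero]
  · rw [coeff_map]

theorem rootT_map {R R' : Type} [CommRing R] [CommRing R'] (f : R →+* R') {N : ℕ}
    {b : ι → R[X]} {T : R[X]} (h : RootT m N ρ nd b T) :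
    RootT m N ρ nd (fun l => (b l).map f) (T.map f) := by
  obtain ⟨h1, h2⟩ := h
  refine ⟨by rw [coeff_map, h1, map_one], ?_⟩
  have h3 := _root_.map_dvd (mapRingHom f) h2
  rw [map_pow, map_sub, map_mul, map_pow, map_prod, map_one] at h3
  simp only [map_pow, coe_mapRingHom, map_X] at h3
  simp only [reflect_map]
  exact h3

variable {n : ℕ} {c : Fin (n + 1)} {T : k[X][X]} {D : Cdat k n} {P S : Fin (n + 1) → k[X][X]}

/-- the connection on the kernel -/
theorem conn_em (hF : FamI m ρ nd c a T D P S) (hOk : D.Ok) (δ : Der E)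
    (hδ : ∀ q : k[X], δ (algebraMap (KX k) E (Helper62.BM.ι k q)) =
      algebraMap (KX k) E (Helper62.BM.ι k (derivative q))) (u : Fin n → E) :
    (fun i => δ (em c (rs c (T.map (th k E))) u i)) + (Matrix.of fun i j =>
      th k E (Mc P S i j) * (th k E D.W)⁻¹) *ᵥ (em c (rs c (T.map (th k E))) u) =
    em c (rs c (T.map (th k E))) ((fun i => δ (u i)) +
      (D.B.map (algebraMap (KX k) E)) *ᵥ u) := by
  obtain ⟨-, -, -, hT, hR, hH, hM⟩ := hF
  have hθW : th k E D.W ≠ 0 := (map_ne_zero_iff _ th_inj).2 (W_ne hOk)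
  have hT0 : (T.map (th k E)).coeff 0 = 1 := by rw [coeff_map, hT.1, map_one]
  have hc : rs c (T.map (th k E)) c = 1 := rs_c c hT0
  set s := rs c (T.map (th k E)) with hs
  set w := em c s u with hw
  have hk : ∑ j, s j * w j = 0 := em_ker hc u
  have hres : ∀ l : Fin (n + 1), ∑ j, s j * (th k E (Mc P S j l) * (th k E D.W)⁻¹) =
      δ (s l) := by
    intro l
    have h1 := congrArg (th k E) (hH l)
    rw [map_mul, map_sum] at h1
    have h2 : δ (s l) = th k E (derivative (res (c : ℕ) T (l : ℕ))) := by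
      rw [hs, rs_map]
      exact hδ _
    have h3 : ∑ j, s j * (th k E (Mc P S j l) * (th k E D.W)⁻¹) =
        (∑ j, s j * th k E (Mc P S j l)) * (th k E D.W)⁻¹ := by
      rw [Finset.sum_mul]
      exact Finset.sum_congr rfl fun j _ => by ring
    have h4 : ∑ j, s j * th k E (Mc P S j l) =
        th k E D.W * th k E (derivative (res (c : ℕ) T (l : ℕ))) := by
      rw [h1]
      refine Finset.sum_congr rfl fun j _ => ?_
      rw [map_mul, hs, rs_map]
    rw [h3, h4, h2]
    field_simp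
  set x : Fin (n + 1) → E := (fun i => δ (w i)) + (Matrix.of fun i j =>
      th k E (Mc P S i j) * (th k E D.W)⁻¹) *ᵥ w with hx
  have hxj : ∀ j, x j = δ (w j) + ∑ l, th k E (Mc P S j l) * (th k E D.W)⁻¹ * w l := by
    intro j
    rw [hx, Pi.add_apply, Matrix.mulVec, dotProduct]
    rfl
  have hk2 : ∑ j, s j * x j = 0 := by
    have h1 : ∑ j, s j * x j = ∑ j, s j * δ (w j) + ∑ l, δ (s l) * w l := by
      simp only [hxj, mul_add, Finset.sum_add_distrib]
      congr 1
      simp only [Finset.mul_sum]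
      rw [Finset.sum_comm]
      refine Finset.sum_congr rfl fun l _ => ?_
      rw [← hres l, Finset.sum_mul]
      exact Finset.sum_congr rfl fun j _ => by ring
    rw [h1, ← Finset.sum_add_distrib]
    have h2 : ∑ j, (s j * δ (w j) + δ (s j) * w j) = δ (∑ j, s j * w j) := by
      rw [map_sum]
      refine Finset.sum_congr rfl fun j _ => ?_
      rw [Derivation.leibniz, smul_eq_mul, smul_eq_mul]
      ring
    rw [h2, hk, map_zero]
  rw [← em_of_ker hc x hk2]
  congr 1
  funext i
  rw [hxj, Pi.add_apply, Matrix.mulVec, dotProduct, hw, em_succ,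
    Fin.sum_univ_succAbove _ c, em_same]
  simp only [em_succ]
  congr 1
  rw [mul_neg, Finset.mul_sum, neg_add_eq_sub, ← Finset.sum_sub_distrib]
  refine Finset.sum_congr rfl fun l _ => ?_
  have e3 : algebraMap (KX k) E (D.B i l) = th k E (D.M i l) * (th k E D.W)⁻¹ := by
    unfold Cdat.B
    rw [Matrix.of_apply, map_mul, map_inv₀]
    rfl
  rw [Matrix.map_apply, e3, hM, MI, Matrix.of_apply, map_sub, map_mul, hs, rs_map]
  ring

theorem solI (hF : FamI m ρ nd c a T D P S) (hOk : D.Ok) (δ : Der E)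
    (hδ : ∀ q : k[X], δ (algebraMap (KX k) E (Helper62.BM.ι k q)) =
      algebraMap (KX k) E (Helper62.BM.ι k (derivative q))) (u : Fin n → E) :
    ∃ P0 S0 : E[X], P0.natDegree < n + 1 ∧ S0.natDegree ≤ n + 1 ∧
      Rl m ρ a P0 S0 (pv c (T.map (th k E)) u) ∧
      dE δ (pv c (T.map (th k E)) u) - P0 - derivative S0 =
        pv c (T.map (th k E)) ((fun i => δ (u i)) + (D.B.map (algebraMap (KX k) E)) *ᵥ u) := by
  obtain ⟨P0, S0, h1, h2, h3, h4⟩ := sol0 (by omega) hF.2.2.2.2.1 (W_ne hOk) δ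
    (em c (rs c (T.map (th k E))) u)
  refine ⟨P0, S0, h1, h2, h3, ?_⟩
  rw [pv_apply, h4, conn_em hF hOk δ hδ u]
  rfl

theorem uniqI (hρ : ∀ l, 0 < ρ l ∧ ρ l < m) (hF : FamI m ρ nd c a T D P S)
    {P1 S1 P2 S2 u : E[X]} (h1 : S1.natDegree ≤ n + 1) (h2 : S2.natDegree ≤ n + 1)
    (e1 : Rl m ρ a P1 S1 u) (e2 : Rl m ρ a P2 S2 u) : P1 = P2 ∧ S1 = S2 := by
  have hF' : FamG m ρ nd a (⟨Mc P S, D.w, D.c, 0, 0, 0, 0⟩ : Cdat k (n + 1)) P S :=
    ⟨hF.1, by have := hF.2.1; omega, hF.2.2.2.2.1, rfl⟩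
  exact uniq hρ hF' h1 h2 e1 e2

theorem irr1 (hρ : ∀ l, 0 < ρ l ∧ ρ l < m) (hF : FamI m ρ nd c a T D P S)
    (hOk : D.Ok) (hI : IrrI k m ρ nd n c a) : Irr k D.B := by
  intro E _ _ _ δ hδ W hW
  have hT := hF.2.2.2.1
  have hTE := rootT_map (th k E) hT
  have hT0 := hTE.1
  set W' : Submodule E E[X] := W.map (pv c (T.map (th k E))) with hW'
  have hW'le : W' ≤ VI (n + 1) (c : ℕ) (T.map (th k E)) := by
    rintro _ ⟨u, hu, rfl⟩
    exact pv_mem c hT0 _
  have hstab : ∀ u ∈ W', ∀ P S : E[X], P.natDegree < n + 1 → S.natDegree ≤ n + 1 →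
      Rl m ρ a P S u → dE δ u - P - derivative S ∈ W' := by
    rintro _ ⟨u, hu, rfl⟩ P1 S1 hP1 hS1 h1
    obtain ⟨P0, S0, hP0, hS0, h0, hconn⟩ := solI hF hOk δ hδ u
    obtain ⟨eP, eS⟩ := uniqI hρ hF hS1 hS0 h1 h0
    rw [eP, eS, hconn]
    exact ⟨_, hW u hu, rfl⟩
  rcases hI E δ hδ (T.map (th k E)) hTE W' hW'le hstab with h | h
  · left
    rw [eq_bot_iff]
    intro u hu
    have h1 : pv c (T.map (th k E)) u ∈ W' := ⟨u, hu, rfl⟩
    rw [h, Submodule.mem_bot] at h1
    rw [Submodule.mem_bot]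
    exact pv_inj c _ (h1.trans (map_zero _).symm)
  · right
    rw [eq_top_iff]
    intro u _
    have h1 : pv c (T.map (th k E)) u ∈ W' := by
      rw [h]
      exact pv_mem c hT0 _
    obtain ⟨v, hv, hvu⟩ := h1
    rw [← pv_inj c _ hvu]
    exact hv

theorem bil1 (hn : 1 ≤ n) (hρ : ∀ l, 0 < ρ l ∧ ρ l < m) (hF : FamI m ρ nd c a T D P S)
    (hOk : D.Ok) (hI : Irr k D.B) (hB : NoBilI k m ρ nd n c a) : NoBil k D.B := by
  intro E _ _ _ δ hδ z hz hlam
  have hT := hF.2.2.2.1
  have hTE := rootT_map (th k E) hT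
  have hT0 := hTE.1
  obtain ⟨lam, hlam⟩ := hlam
  have hchar : CharZero E := charZero_of_injective_ringHom (algebraMap (KX k) E).injective
  set BE : Matrix (Fin n) (Fin n) E := D.B.map (algebraMap (KX k) E) with hBE
  have hdz : z.map (fun u => δ u) = lam • z - BE * z - z * BEᵀ := by
    rw [← hlam]
    abel
  -- the image
  rcases hI E δ hδ (LinearMap.range (Matrix.mulVecLin z)) (by
    rintro _ ⟨y, rfl⟩
    refine ⟨lam • y - BEᵀ *ᵥ y + fun i => δ (y i), ?_⟩
    rw [Matrix.mulVecLin_apply, Matrix.mulVecLin_apply, Matrix.mulVec_add, Matrix.mulVec_sub,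
      Matrix.mulVec_smul, Matrix.mulVec_mulVec, d_mulVec, hdz, Matrix.sub_mulVec,
      Matrix.sub_mulVec, Matrix.smul_mulVec, Matrix.mulVec_mulVec]
    abel) with h | h
  · have h1 : Matrix.mulVecLin z = 0 := LinearMap.range_eq_bot.1 h
    have h2 : Matrix.toLin' z = 0 := by
      rw [← h1]
      rfl
    exact (LinearEquiv.map_eq_zero_iff Matrix.toLin').1 h2
  · exfalso
    have hsurj : Function.Surjective z.mulVec := by
      have := LinearMap.range_eq_top.1 h
      exact this
    have hu : IsUnit z := Matrix.mulVec_surjective_iff_isUnit.1 hsurj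
    have hdet : IsUnit z.det := (Matrix.isUnit_iff_isUnit_det z).1 hu
    set w := z⁻¹ with hw
    have hwz : w * z = 1 := Matrix.nonsing_inv_mul z hdet
    have hzw : z * w = 1 := Matrix.mul_nonsing_inv z hdet
    have hwt : wᵀ = -w := by
      have h1 : wᵀ * zᵀ = 1 := by
        rw [← Matrix.transpose_mul, hzw, Matrix.transpose_one]
      rw [hz, Matrix.mul_neg] at h1
      have h2 : -(wᵀ) = w := by
        calc -(wᵀ) = -(wᵀ) * (z * w) := by rw [hzw, mul_one]
          _ = (-(wᵀ * z)) * w := by rw [← mul_assoc, neg_mul]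
          _ = w := by rw [h1, one_mul]
      exact neg_eq_iff_eq_neg.1 h2
    have hdw : w.map (fun u => δ u) = -(lam • w) + w * BE + BEᵀ * w := by
      have h1 := d_mul δ w z
      rw [hwz] at h1
      have h2 : (1 : Matrix (Fin n) (Fin n) E).map (fun u => δ u) = 0 := by
        ext1 i j
        rw [Matrix.map_apply, Matrix.one_apply, Matrix.zero_apply]
        split_ifs
        · exact Derivation.map_one_eq_zero δ
        · exact map_zero δ
      rw [h2] at h1
      calc w.map (fun u => δ u) = w.map (fun u => δ u) * (z * w) := by rw [hzw, mul_one]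
        _ = (w.map (fun u => δ u) * z) * w := by rw [mul_assoc]
        _ = -(w * z.map (fun u => δ u)) * w := by
            rw [eq_neg_of_add_eq_zero_left h1.symm]
        _ = -(w * (lam • z - BE * z - z * BEᵀ)) * w := by rw [hdz]
        _ = -(lam • (w * z) * w - w * BE * (z * w) - (w * z) * BEᵀ * w) := by
            rw [Matrix.mul_sub, Matrix.mul_sub, Matrix.mul_smul, neg_mul, Matrix.sub_mul,
              Matrix.sub_mul]
            simp only [mul_assoc]
        _ = _ := by
            rw [hwz, hzw, mul_one, one_mul, Matrix.smul_mul, one_mul]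
            abel
    have hzero := hB E δ hδ (T.map (th k E)) hTE (bil c w) (-lam) (by
      intro f
      have h1 : bil c w f f = -bil c w f f := by
        conv_lhs => rw [bil_apply, Finset.sum_comm]
        rw [bil_apply, ← Finset.sum_neg_distrib]
        refine Finset.sum_congr rfl fun i _ => ?_
        rw [← Finset.sum_neg_distrib]
        refine Finset.sum_congr rfl fun j _ => ?_
        have h2 := congrFun (congrFun hwt i) j
        rw [Matrix.transpose_apply, Matrix.neg_apply] at h2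
        rw [h2]
        ring
      have h2 : (2 : E) * bil c w f f = 0 := by linear_combination h1
      exact (mul_eq_zero.1 h2).resolve_left two_ne_zero) (by
      intro u hu v hv P1 S1 P2 S2 hP1 hS1 hP2 hS2 r1 r2
      obtain ⟨u, rfl⟩ := pv_surj c hT0 hu
      obtain ⟨v, rfl⟩ := pv_surj c hT0 hv
      obtain ⟨P0, S0, hP0, hS0, h0, hconn⟩ := solI hF hOk δ hδ u
      obtain ⟨eP, eS⟩ := uniqI hρ hF hS1 hS0 r1 h0
      obtain ⟨P0', S0', hP0', hS0', h0', hconn'⟩ := solI hF hOk δ hδ v
      obtain ⟨eP', eS'⟩ := uniqI hρ hF hS2 hS0' r2 h0'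
      rw [eP, eS, hconn, eP', eS', hconn', bil_pv, bil_pv, bil_pv, d_dot, d_mulVec, hdw,
        ← hBE]
      simp only [Matrix.add_mulVec, Matrix.neg_mulVec, Matrix.smul_mulVec, dotProduct_add,
        add_dotProduct, dotProduct_neg, dotProduct_smul, Matrix.mulVec_add, smul_eq_mul,
        ← Matrix.mulVec_mulVec]
      have h3 : u ⬝ᵥ BEᵀ *ᵥ w *ᵥ v = BE *ᵥ u ⬝ᵥ w *ᵥ v := by
        rw [Matrix.mulVec_transpose, dotProduct_comm u, ← Matrix.dotProduct_mulVec,
          dotProduct_comm]
      rw [h3]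
      ring)
    have hw0 : w = 0 := by
      ext1 i j
      have h1 := hzero (pv c (T.map (th k E)) (Pi.single i 1)) (pv_mem c hT0 _)
        (pv c (T.map (th k E)) (Pi.single j 1)) (pv_mem c hT0 _)
      rw [bil_pv] at h1
      simpa using h1
    rw [hw0, Matrix.zero_mul] at hwz
    have := congrFun (congrFun hwz ⟨0, hn⟩) ⟨0, hn⟩
    rw [Matrix.zero_apply, Matrix.one_apply_eq] at this
    exact zero_ne_one this

end conn

/-- **I6.** -/
theorem i_Irr : I_Irr := by
  intro ι _ _ k _ _ m n ρ nd c hρ hn a T D P S hF hOk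
  exact ⟨irr1 hρ hF hOk, bil1 hn hρ hF hOk⟩

end Pool.Agent.Helper90.IX
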