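import Pool.Agent.Helper62.IX.Stm
import Pool.Agent.Helper12.GX.FewG
import Pool.Agent.Helper90.IX.Irr

/-!
# I5: the soft Stepanov method on the kernel of the residue at infinity (an edit of
helper12's `GX/FewG.lean`)
-/

set_option autoImplicit false

open Polynomial Matrix Finset

namespace Pool.Agent.Helper90.IX.Few

open Pool.Agent.Helper62.BM Pool.Agent.Helper62.CX Pool.Agent.Helper62.GX Pool.Agent.Helper62.IX
open Pool.Agent.Helper62.BW (dt coeff_dt map_dt sep_clear sep_map map_ne)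
open Pool.Agent.Helper36.BM (mon)
open Pool.Agent.Helper36.CX (map_Mc map_Wc)
open Pool.Agent.Helper12.BM (stepJ Jd Mm mon_ode' map_Mm natDegree_mon Fk sum_Fk M0k ode_zero_k
  ι_inj)
open Pool.Agent.Helper12.GX (map_LamG map_relG map_YG)

section maps

variable {A B : Type} [CommRing A] [CommRing B] (φ : A →+* B) {I : Type} [Fintype I]
  [DecidableEq I]

theorem map_res (c : ℕ) (T : A[X]) (l : ℕ) : res c (T.map φ) l = φ (res c T l) := by
  unfold res
  split_ifs
  · rw [map_zero]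
  · rw [coeff_map]

theorem map_YI {p d n : ℕ} {q : I → ℕ} (c : Fin (n + 1)) (T : A[X]) (a : I → A[X]) :
    (YI c T p q d a).map φ = YI c (T.map φ) p q d (fun l => (a l).map φ) := by
  ext1 i l
  have h := fun j : Fin (n + 1) => congrFun (congrFun (map_YG φ (p := p) (d := d) (N := n + 1)
    (q := q) a) i) j
  rw [Matrix.map_apply, YI, Matrix.of_apply, YI, Matrix.of_apply, map_sub, map_mul, ← h, ← h,
    Matrix.map_apply, Matrix.map_apply, map_res]

theorem map_MI {n : ℕ} (c : Fin (n + 1)) (T : A[X]) (M : Matrix (Fin (n + 1)) (Fin (n + 1)) A)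
    (i j : Fin n) : φ (MI c T M i j) = MI c (T.map φ) (M.map φ) i j := by
  rw [MI, Matrix.of_apply, MI, Matrix.of_apply, map_sub, map_mul, map_res, Matrix.map_apply,
    Matrix.map_apply]

theorem map_horT {n : ℕ} {c : Fin (n + 1)} {T : A[X][X]} {W : A[X]}
    {M : Matrix (Fin (n + 1)) (Fin (n + 1)) A[X]} (h : HorT c T W M) :
    HorT c (T.map (mapRingHom φ)) (W.map φ) (M.map (mapRingHom φ)) := by
  intro l
  have h1 := congrArg (mapRingHom φ) (h l)
  rw [map_mul, map_sum] at h1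
  simp only [map_mul] at h1
  rw [map_res, coe_mapRingHom, derivative_map]
  rw [coe_mapRingHom] at h1
  rw [h1]
  refine Finset.sum_congr rfl fun j _ => ?_
  rw [map_res, Matrix.map_apply]
  rfl

/-- the first columns -/
theorem YI_low {n : ℕ} {p d : ℕ} {q : I → ℕ} (c : Fin (n + 1)) (hc : (c : ℕ) < n) (T : A[X])
    (a : I → A[X]) (i : Fin d) (l : Fin (c : ℕ)) :
    YI c T p q d a i (Fin.castLE hc.le l) = YG p q d (c : ℕ) a i l := by
  have h1 : c.succAbove (Fin.castLE hc.le l) = Fin.castSucc (Fin.castLE hc.le l) := by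
    apply Fin.succAbove_of_castSucc_lt
    rw [Fin.lt_def]
    exact l.2
  rw [YI, Matrix.of_apply, h1]
  have h2 : res (c : ℕ) T ((Fin.castSucc (Fin.castLE hc.le l) : Fin (n + 1)) : ℕ) = 0 := by
    unfold res
    rw [if_pos]
    exact l.2
  rw [h2, zero_mul, sub_zero]
  rfl

end maps

/-- The frame over the reductions. -/
theorem frameI (hHWb : I_HWb) (hHWrank : I_HWrank) {I : Type} [Fintype I] [DecidableEq I]
    {A : Type} [CommRing A] [IsDomain A]
    {m n : ℕ} {ρ nd : I → ℕ} {c : Fin (n + 1)} (hρ : ∀ l, 0 < ρ l ∧ ρ l < m)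
    {a : I → A[X][X]} {T : A[X][X]} {D : Cdat A n} {P S : Fin (n + 1) → A[X][X]}
    (hF : FamI m ρ nd c a T D P S) (hOk : D.Ok) :
    ∃ a₁ : A, a₁ ≠ 0 ∧ ∀ (p : ℕ) [Fact p.Prime] (k : Type) [Field k] [CharP k p] (φ : A →+* k),
      n + 2 < p → m ∣ p - 1 → φ a₁ ≠ 0 →
      (∀ i l, (D.map φ).W * derivative (YI c (T.map (mapRingHom φ)) p
          (fun j => ρ j * ((p - 1) / m)) (c : ℕ) (fun l => (a l).map (mapRingHom φ)) i l) =
        ∑ j, YI c (T.map (mapRingHom φ)) p (fun j => ρ j * ((p - 1) / m)) (c : ℕ)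
          (fun l => (a l).map (mapRingHom φ)) i j * (D.map φ).M j l) ∧
      (∀ D' : Der (KX k), IsDer D' → ∀ i l,
        D' (((YI c (T.map (mapRingHom φ)) p (fun j => ρ j * ((p - 1) / m)) (c : ℕ)
          (fun l => (a l).map (mapRingHom φ))).map (ι k)) i l) =
          ((YI c (T.map (mapRingHom φ)) p (fun j => ρ j * ((p - 1) / m)) (c : ℕ)
          (fun l => (a l).map (mapRingHom φ))).map (ι k) * (D.map φ).B) i l) ∧
      (∀ v : Fin (c : ℕ) → KX k,
        v ᵥ* (YI c (T.map (mapRingHom φ)) p (fun j => ρ j * ((p - 1) / m)) (c : ℕ)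
          (fun l => (a l).map (mapRingHom φ))).map (ι k) = 0 → v = 0) := by
  classical
  obtain ⟨⟨hmd, hsep⟩, hN, hmc, hT, hRel, hHor, hM⟩ := hF
  obtain ⟨u, v, s, hs, huv⟩ := sep_clear (∏ l, a l) hsep
  refine ⟨D.w.eval D.c * s.leadingCoeff, mul_ne_zero hOk.1 (leadingCoeff_ne_zero.2 hs),
    fun p _ k _ _ φ hp hmp hφ => ?_⟩
  rw [map_mul] at hφ
  obtain ⟨a', ha'⟩ : ∃ a' : I → k[X][X], a' = fun l => (a l).map (mapRingHom φ) := ⟨_, rfl⟩
  obtain ⟨T', hT'⟩ : ∃ T' : k[X][X], T' = T.map (mapRingHom φ) := ⟨_, rfl⟩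
  have hTr : RootT m (n + 1) ρ nd a' T' := by
    rw [ha', hT']
    exact Pool.Agent.Helper90.IX.rootT_map (mapRingHom φ) hT
  rw [← ha', ← hT']
  set P' : Fin (n + 1) → k[X][X] := fun l => (P l).map (mapRingHom φ) with hP'
  set S' : Fin (n + 1) → k[X][X] := fun l => (S l).map (mapRingHom φ) with hS'
  have hRel' : RelG m ρ (n + 1) a' (D.map φ).W P' S' := by
    rw [map_Wc, ha']
    exact map_relG φ hRel
  have hMc : (Mc P S).map (mapRingHom φ) = Mc P' S' := by
    ext1 i l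
    rw [Matrix.map_apply, coe_mapRingHom, map_Mc]
  have hHor' : HorT c T' (D.map φ).W (Mc P' S') := by
    rw [map_Wc, hT', ← hMc]
    exact map_horT φ hHor
  have hM' : ∀ i l, (D.map φ).M i l = MI c T' (Mc P' S') i l := by
    intro i l
    have h1 : (D.map φ).M i l = mapRingHom φ (D.M i l) := rfl
    rw [h1, hM, map_MI, hMc, hT']
  have hode : ∀ i l, (D.map φ).W * derivative (YI c T' p (fun j => ρ j * ((p - 1) / m))
          (c : ℕ) a' i l) =
        ∑ j, YI c T' p (fun j => ρ j * ((p - 1) / m)) (c : ℕ)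
          a' i j * (D.map φ).M j l := by
    intro i l
    rw [hHWb I k p m (c : ℕ) n ρ c hmp hρ a' T' hTr.1 (D.map φ).W P' S' hRel' hHor' i l]
    exact Finset.sum_congr rfl fun j _ => by rw [hM']
  have hW0 : (D.map φ).W ≠ 0 := by
    intro h0
    rcases mul_eq_zero.1 h0 with h1 | h1
    · exact X_sub_C_ne_zero _ h1
    · apply left_ne_zero_of_mul hφ
      have h2 : D.w.map φ = 0 := h1
      rw [← Polynomial.eval_map_apply, h2, eval_zero]
  have hWι : ι k (D.map φ).W ≠ 0 := fun h0 => hW0 (ι_inj k (h0.trans (map_zero _).symm))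
  refine ⟨hode, fun D' hD' i l => ?_, fun w hw => ?_⟩
  · rw [Matrix.map_apply, hD', Matrix.mul_apply]
    apply mul_left_cancel₀ hWι
    rw [← map_mul, hode, map_sum, Finset.mul_sum]
    refine Finset.sum_congr rfl fun j _ => ?_
    rw [Cdat.B, Matrix.of_apply, map_mul, Matrix.map_apply]
    field_simp
  · rw [map_YI] at hw
    refine hHWrank I (KX k) p m n ρ nd c hmp hρ hmc hN (by omega) (fun l => (a' l).map (ι k))
      ?_ ?_ (T'.map (ι k)) (Pool.Agent.Helper90.IX.rootT_map (ι k) hTr) w hw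
    · intro l
      show ((a' l).map (ι k)).Monic ∧ ((a' l).map (ι k)).natDegree = nd l
      rw [ha']
      refine ⟨((hmd l).1.map _).map _, ?_⟩
      show (((a l).map (mapRingHom φ)).map (ι k)).natDegree = nd l
      rw [(((hmd l).1.map _).natDegree_map _), (hmd l).1.natDegree_map, (hmd l).2]
    · have h1 : ∏ l, (a' l).map (ι k) = (∏ l, a l).map ((ι k).comp (mapRingHom φ)) := by
        rw [ha', Polynomial.map_prod]
        exact Finset.prod_congr rfl fun l _ => Polynomial.map_map _ _ _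
      rw [h1]
      refine sep_map _ (∏ l, a l) u v s huv ?_
      intro h0
      exact map_ne φ s (right_ne_zero_of_mul hφ) (ι_inj k (h0.trans (map_zero _).symm))

/-- **I5** -/
theorem i_FewG (hStep : S_Step) (hNV : C_NV) (hFrac : S_Frac) (hHWb : I_HWb) (hHWdeg : I_HWdeg)
    (hHWrank : I_HWrank) : I_FewG := by
  intro I _ _ m n ρ nd c hρ hN2 hdn A _ _ _ _ a TT D P S hF hOk hSt G hG ε hε
  classical
  have hN := hF.2.1
  obtain ⟨l₀⟩ : Nonempty I := by
    by_contra hne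
    haveI : IsEmpty I := not_nonempty_iff.1 hne
    rw [Finset.univ_eq_empty, Finset.sum_empty] at hN
    omega
  have hm0 : 0 < m := (hρ l₀).1.trans (hρ l₀).2
  obtain ⟨a₃, ha₃, hfr⟩ := frameI hHWb hHWrank hρ hF hOk
  let em : Fin (c : ℕ) → Fin n := Fin.castLE hdn.le
  have hem : Function.Injective em := Fin.castLE_injective hdn.le
  set d := G.totalDegree with hd
  have hη₀ : MvPolynomial.rename (Prod.map id em : Fin (c : ℕ) × Fin (c : ℕ) →
      Fin (c : ℕ) × Fin n) G ≠ 0 := by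
    intro h0
    apply hG
    apply MvPolynomial.rename_injective _ (Function.injective_id.prodMap hem)
    rw [h0, map_zero]
  have hq0 : D.W ≠ 0 := by
    intro h0
    rcases mul_eq_zero.1 h0 with h1 | h1
    · exact X_sub_C_ne_zero _ h1
    · apply hOk.1
      rw [h1, eval_zero]
  obtain ⟨T₂, hT₂⟩ : ∃ T₂ : ℕ, ∀ l i, ((a l).coeff i).natDegree ≤ T₂ := by
    refine ⟨univ.sup fun l => (a l).support.sup fun i => ((a l).coeff i).natDegree, ?_⟩
    intro l i
    by_cases hj : i ∈ (a l).support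
    · exact (Finset.le_sup (f := fun i => ((a l).coeff i).natDegree) hj).trans
        (Finset.le_sup (f := fun l => (a l).support.sup fun i => ((a l).coeff i).natDegree)
          (Finset.mem_univ l))
    · rw [notMem_support_iff.1 hj, natDegree_zero]
      exact Nat.zero_le _
  obtain ⟨T₁, hT₁, hT₃⟩ : ∃ T₁ : ℕ, (∀ l i, ((a l).coeff i).natDegree ≤ T₁) ∧
      ∀ i, (TT.coeff i).natDegree ≤ T₁ := by
    refine ⟨T₂ + TT.support.sup fun i => (TT.coeff i).natDegree,
      fun l i => (hT₂ l i).trans (Nat.le_add_right _ _), fun i => ?_⟩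
    by_cases hj : i ∈ TT.support
    · exact (Finset.le_sup (f := fun i => (TT.coeff i).natDegree) hj).trans
        (Nat.le_add_left _ _)
    · rw [notMem_support_iff.1 hj, natDegree_zero]
      exact Nat.zero_le _
  obtain ⟨T₀, hT₀⟩ : ∃ T₀ : ℕ, T₀ = T₁ * (Fintype.card I + 1) := ⟨_, rfl⟩
  obtain ⟨e, A₀, β, p₁, a₁, ha₁, hst⟩ := stepJ hStep A (Fin (c : ℕ) × Fin n)
    (Jd (c : ℕ) n d) (MvPolynomial.rename (Prod.map id em) G)
    (fun u => ∏ s, (MvPolynomial.X s) ^ u.1 s) hη₀ D.W (M0k D.W D.M (Fk em G)) (Mm D.M) hq0 ε hε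
    ((univ.sup fun u : Jd (c : ℕ) n d => (Fk em G u).natDegree) + d * T₀)
  set Dm := univ.sup fun u : Jd (c : ℕ) n d => (Fk em G u).natDegree with hDm
  obtain ⟨p₂, a₂, ha₂, hnv⟩ := hNV n (c : ℕ) hN2 hdn A D hOk hSt e A₀ β
  refine ⟨p₁ + p₂ + n + m + 3, a₁ * a₂ * a₃, mul_ne_zero (mul_ne_zero ha₁ ha₂) ha₃, ?_⟩
  intro p _ k _ _ φ hp hmp hφ T hT
  rw [map_mul, map_mul] at hφ
  have hφ₁ := left_ne_zero_of_mul (left_ne_zero_of_mul hφ)
  have hφ₂ := right_ne_zero_of_mul (left_ne_zero_of_mul hφ)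
  have hφ₃ := right_ne_zero_of_mul hφ
  obtain ⟨hode', hor, hrk⟩ := hfr p k φ (by omega) hmp hφ₃
  obtain ⟨D', hD', -⟩ := hFrac k
  obtain ⟨Y, hY⟩ : ∃ Y : Matrix (Fin (c : ℕ)) (Fin n) k[X], Y =
    YI c (TT.map (mapRingHom φ)) p (fun j => ρ j * ((p - 1) / m)) (c : ℕ)
      (fun l => (a l).map (mapRingHom φ)) := ⟨_, rfl⟩
  have hdY : ∀ i l, (Y i l).natDegree ≤ T₀ * p := by
    intro i l
    rw [hY, hT₀]
    refine hHWdeg I k p (c : ℕ) n T₁ (fun j => ρ j * ((p - 1) / m)) c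
      (fun l => (a l).map (mapRingHom φ)) (TT.map (mapRingHom φ)) (by omega) ?_ ?_ ?_ i l
    rotate_left
    · intro i
      rw [coeff_map, coe_mapRingHom]
      exact natDegree_map_le.trans (hT₃ i)
    rotate_left
    · intro l i
      rw [coeff_map, coe_mapRingHom]
      exact natDegree_map_le.trans (hT₁ l i)
    · intro l
      calc ρ l * ((p - 1) / m) ≤ m * ((p - 1) / m) := Nat.mul_le_mul_right _ (hρ l).2.le
        _ ≤ p - 1 := Nat.mul_div_le _ _
        _ ≤ p := Nat.sub_le _ _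
  have hYs : ∀ s : Fin (c : ℕ) × Fin (c : ℕ),
      YG p (fun j => ρ j * ((p - 1) / m)) (c : ℕ) (c : ℕ)
        (fun l => (a l).map (mapRingHom φ)) s.1 s.2 = Y s.1 (em s.2) := by
    intro s
    rw [hY]
    exact (YI_low c hdn _ _ _ _).symm
  rw [← hY] at hode' hor hrk
  have hNVp := hnv p k φ (by omega) hφ₂ D' hD' (Y.map (ι k)) (hor D' hD') hrk
  have hbφ : ∀ i j, (D.M i j).map φ = (D.map φ).M i j := fun i j => rfl
  have hode : ∀ i l, D.W.map φ * derivative (Y i l) = ∑ j, Y i j * (D.map φ).M j l := by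
    intro i l
    rw [← map_Wc]
    exact hode' i l
  have hZ₀ := sum_Fk (d := d) φ em G le_rfl Y
  have hdm : ∀ v : Jd (c : ℕ) n d, (mon Y v.1).natDegree ≤ d * T₀ * p := by
    intro v
    refine (natDegree_mon _ _ hdY v.1).trans ?_
    rw [mul_assoc]
    exact Nat.mul_le_mul_right _ v.2
  refine hst p k φ (by omega) hφ₁ (MvPolynomial.eval₂ (mapRingHom φ)
    (fun s : Fin (c : ℕ) × Fin (c : ℕ) => Y s.1 (em s.2)) G)
    (fun v => mon Y v.1) (fun s => (Y.map (ι k)) s.1 s.2) ?_ ?_ ?_ ?_ ?_ ?_ hNVp T ?_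
  · rw [MvPolynomial.eval₂_rename, MvPolynomial.eval₂_comp_left]
    rfl
  · intro v
    rw [mon, map_prod, ← MvPolynomial.coe_eval₂Hom, map_prod]
    refine Finset.prod_congr rfl fun s _ => ?_
    rw [map_pow, map_pow, MvPolynomial.coe_eval₂Hom, MvPolynomial.eval₂_X]
    rfl
  · rw [hZ₀]
    exact ode_zero_k φ D.W D.M _ hbφ (Fk em G) _ hode
  · intro v
    rw [mon_ode' _ _ _ hode v]
    refine Finset.sum_congr rfl fun v' _ => ?_
    rw [map_Mm φ D.M _ hbφ]
  · rw [hZ₀, add_mul]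
    refine natDegree_sum_le_of_forall_le _ _ fun v _ => ?_
    refine natDegree_mul_le.trans (Nat.add_le_add ?_ (hdm v))
    have h1 : ((Fk em G v).map φ).natDegree ≤ Dm := by
      refine natDegree_map_le.trans ?_
      exact Finset.le_sup (f := fun v : Jd (c : ℕ) n d => (Fk em G v).natDegree)
        (Finset.mem_univ v)
    exact h1.trans (Nat.le_mul_of_pos_right _ (by omega))
  · intro v
    refine (hdm v).trans ?_
    rw [add_mul]
    exact Nat.le_add_left _ _
  · intro t ht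
    obtain ⟨h1, h3⟩ := hT t ht
    refine ⟨h1, ?_⟩
    rw [← coe_evalRingHom, MvPolynomial.eval₂_comp_left]
    refine Eq.trans ?_ h3
    congr 1
    funext s
    rw [hYs]
    rfl

end Pool.Agent.Helper90.IX.Few

namespace Pool.Agent.Helper90.IX

open Pool.Agent.Helper62.BM Pool.Agent.Helper62.CX Pool.Agent.Helper62.IX in
/-- **I5** -/
theorem i_FewG (hStep : S_Step) (hNV : C_NV) (hFrac : S_Frac) (hHWb : I_HWb) (hHWdeg : I_HWdeg)
    (hHWrank : I_HWrank) : I_FewG :=
  Few.i_FewG hStep hNV hFrac hHWb hHWdeg hHWrank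

end Pool.Agent.Helper90.IX
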